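import Pool.Agent.ToricGB.Six

set_option autoImplicit false

namespace Pool.Agent.Results.MP_ae75a9_co.Disproof

open Pool.Agent.ToricGB Pool.Agent.ToricGB.Six MvPolynomial

/-- For `n = 6` the statement of Q1 fails, over every field and for every choice of the total
order `L` of the lattice points extending the order by number of entries equal to `2` (and also
for every total order with the opposite convention): the reduced Gröbner basis for the graded
reverse lexicographic order of `L` contains a binomial `g = u - v` of degree `3` whose matrix `A`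
has no decomposition with a summand free of entries equal to `2`; every summand of every
decomposition has an entry `2`. Moreover `A` is not block diagonal up to a simultaneous
permutation of rows and columns, and no entry of `A` equals `6 = 2 deg g`, so no entry is forced
to be `2` in all summands. -/
theorem result {k : Type*} [Field k] (L : LinearOrder (LP 6))
    (hL : (∀ M N : LP 6, twos N < twos M → L.lt M N) ∨
      (∀ M N : LP 6, twos N < twos M → L.lt N M)) :
    ∃ m : MonomialOrder.{0, 0} (LP 6), (∀ u w, m.toSyn u < m.toSyn w ↔ RevLexLT L u w) ∧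
      (∃ G : Set (MvPolynomial (LP 6) k), IsReducedGroebnerBasis m (toricIdeal 6 k) G) ∧
      ∀ G : Set (MvPolynomial (LP 6) k), IsReducedGroebnerBasis m (toricIdeal 6 k) G →
        ∃ g ∈ G, ∃ (u v : LP 6 →₀ ℕ) (A : Matrix (Fin 6) (Fin 6) ℕ),
          g = monomial u 1 - monomial v 1 ∧ u ≠ v ∧ u.degree = 3 ∧ v.degree = 3 ∧
          matrixOf u = A ∧ matrixOf v = A ∧
          (∀ w : LP 6 →₀ ℕ, matrixOf w = A → ∀ M ∈ w.support, ∃ i j, M.1 i j = 2) ∧
          (∀ s : Finset (Fin 6), s.Nonempty → s ≠ Finset.univ → ∃ i ∈ s, ∃ j ∉ s, A i j ≠ 0) ∧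
          (∀ i j, A i j < 6) := by
  refine ⟨grevlex L, fun u w => grevlex_lt_iff L u w, ?_, ?_⟩
  · rw [toricIdeal_eq]
    exact exists_isReducedGroebnerBasis _ _
  · intro G hG
    rcases hL with hL | hL
    · obtain ⟨g, hg, u, v, h1, h2, h3, h4, h5, h6⟩ := main1 L hL G hG
      refine ⟨g, hg, u, v, A1, h1, h2, h3, h4, h5, h6, two_mem1, ?_, ?_⟩
      · exact (show ∀ s : Finset (Fin 6), s.Nonempty → s ≠ Finset.univ →
          ∃ i ∈ s, ∃ j ∉ s, fA1 i j ≠ 0 by decide +kernel)
      · exact (show ∀ i j, fA1 i j < 6 by decide +kernel)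
    · obtain ⟨g, hg, u, v, h1, h2, h3, h4, h5, h6⟩ := main2 L hL G hG
      refine ⟨g, hg, u, v, A2, h1, h2, h3, h4, h5, h6, two_mem2, ?_, ?_⟩
      · exact (show ∀ s : Finset (Fin 6), s.Nonempty → s ≠ Finset.univ →
          ∃ i ∈ s, ∃ j ∉ s, fA2 i j ≠ 0 by decide +kernel)
      · exact (show ∀ i j, fA2 i j < 6 by decide +kernel)

end Pool.Agent.Results.MP_ae75a9_co.Disproof
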